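import Pool.Agent.H4.AM.Targets

/-!
# Alperin–McKay (MP_657073_al): modules P3 and P4 (direct squares)
-/

open scoped Classical

set_option linter.unusedSectionVars false

namespace AMx

namespace HP

section transport

variable {A B : Type} [Group A] [Group B] [Fintype A] [Fintype B] (e : A ≃* B)

theorem isConj_equiv (a y : A) : IsConj a y ↔ IsConj (e a) (e y) := by
  rw [isConj_iff, isConj_iff]
  constructor
  · rintro ⟨c, rfl⟩
    exact ⟨e c, by simp⟩
  · rintro ⟨c, hc⟩
    refine ⟨e.symm c, e.injective ?_⟩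
    simp [hc]

theorem cen_comp {G : Type} [Group G] (j : B →* G) (j' : A →* G) (hj : ∀ a, j' a = j (e a))
    (f : B → ℂ) (f' : A → ℂ) (hf : ∀ a, f' a = f (e a)) (x : G) :
    cen j' f' x = cen j f x := by
  unfold cen
  congr 1
  · refine Fintype.sum_equiv e.toEquiv _ _ fun y => ?_
    simp only [MulEquiv.toEquiv_eq_coe, EquivLike.coe_coe, hj, hf]
  · rw [hf, map_one]

theorem cen_equiv (f : B → ℂ) (f' : A → ℂ) (hf : ∀ a, f' a = f (e a)) (a : A) :
    cen (MonoidHom.id A) f' a = cen (MonoidHom.id B) f (e a) := by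
  unfold cen
  congr 1
  · refine Fintype.sum_equiv e.toEquiv _ _ fun y => ?_
    simp only [MulEquiv.toEquiv_eq_coe, EquivLike.coe_coe, hf, MonoidHom.id_apply]
    by_cases h : IsConj a y
    · rw [if_pos h, if_pos ((isConj_equiv e a y).mp h)]
    · rw [if_neg h, if_neg (fun h' => h ((isConj_equiv e a y).mpr h'))]
  · rw [hf, map_one]

theorem conv_equiv (a b : A → ℂ) (x : B) :
    conv (fun y => a (e.symm y)) (fun y => b (e.symm y)) x = conv a b (e.symm x) := by
  unfold conv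
  refine Fintype.sum_equiv e.symm.toEquiv _ _ fun y => ?_
  simp

theorem irr_equiv (hC1 : T_C1) (hC2 : T_C2) (f : B → ℂ) (hf : f ∈ Irr B) (f' : A → ℂ)
    (hf' : ∀ a, f' a = f (e a)) : f' ∈ Irr A := by
  apply hC2
  have h := (hC1 B f hf).1
  refine ⟨?_, ?_, ?_, ?_⟩
  · obtain ⟨r, hr, hr'⟩ := h.pos
    exact ⟨r, hr, by rw [hf', map_one]; exact hr'⟩
  · intro g x
    rw [hf', hf', map_mul, map_mul, map_inv]
    exact h.cf _ _
  · intro a b ha hb
    have hsum : ∀ c : A → ℂ, ∑ x, c x * f' x = ∑ x, c (e.symm x) * f x := by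
      intro c
      refine Fintype.sum_equiv e.toEquiv _ _ fun y => ?_
      simp only [MulEquiv.toEquiv_eq_coe, EquivLike.coe_coe, hf', MulEquiv.symm_apply_apply]
    rw [hsum, hsum, hsum, hf', map_one]
    have h2 := h.mul (fun y => a (e.symm y)) (fun y => b (e.symm y))
      (fun g x => by
        show a (e.symm (g * x * g⁻¹)) = a (e.symm x)
        rw [map_mul, map_mul, map_inv]; exact ha _ _)
      (fun g x => by
        show b (e.symm (g * x * g⁻¹)) = b (e.symm x)
        rw [map_mul, map_mul, map_inv]; exact hb _ _)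
    rw [← h2]
    congr 1
    refine Finset.sum_congr rfl fun x _ => ?_
    rw [conv_equiv]
  · rw [Nat.card_congr e.toEquiv, ← h.norm]
    refine Fintype.sum_equiv e.toEquiv _ _ fun y => ?_
    simp only [MulEquiv.toEquiv_eq_coe, EquivLike.coe_coe, hf', map_inv]

variable (𝔪 : Ideal (integralClosure ℤ ℂ)) (ℓ : ℕ)

theorem sameBlock_equiv (f g : B → ℂ) (f' g' : A → ℂ) (hf : ∀ a, f' a = f (e a))
    (hg : ∀ a, g' a = g (e a)) : SameBlock 𝔪 f' g' ↔ SameBlock 𝔪 f g := by
  unfold SameBlock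
  constructor
  · intro h x
    have := h (e.symm x)
    rw [cen_equiv e f f' hf, cen_equiv e g g' hg, e.apply_symm_apply] at this
    exact this
  · intro h x
    rw [cen_equiv e f f' hf, cen_equiv e g g' hg]
    exact h _

theorem relIndex_comap_equiv (D C : Subgroup B) :
    (D.comap e.toMonoidHom).relIndex (C.comap e.toMonoidHom) = D.relIndex C := by
  rw [Subgroup.relIndex_comap]
  congr 1
  exact Subgroup.map_comap_eq_self_of_surjective e.surjective C

theorem centralizer_comap (x : A) :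
    (Subgroup.centralizer {e x}).comap e.toMonoidHom = Subgroup.centralizer {x} := by
  ext y
  rw [Subgroup.mem_comap, Subgroup.mem_centralizer_singleton_iff,
    Subgroup.mem_centralizer_singleton_iff]
  show e y * e x = e x * e y ↔ _
  rw [← map_mul, ← map_mul]
  exact e.injective.eq_iff

theorem isDefect_equiv (f : B → ℂ) (f' : A → ℂ) (hf : ∀ a, f' a = f (e a)) (D : Subgroup B)
    (h : IsDefect ℓ 𝔪 f D) : IsDefect ℓ 𝔪 f' (D.comap e.toMonoidHom) := by
  obtain ⟨h1, ⟨x, hx1, hx2, hx3⟩, h3⟩ := h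
  refine ⟨h1.comap_of_injective e.toMonoidHom e.injective, ⟨e.symm x, ?_, ?_, ?_⟩, ?_⟩
  · rw [cen_equiv e f f' hf, e.apply_symm_apply]; exact hx1
  · rw [← centralizer_comap e, e.apply_symm_apply]
    exact Subgroup.comap_mono hx2
  · rw [← centralizer_comap e, e.apply_symm_apply, relIndex_comap_equiv]
    exact hx3
  · intro a ha
    rw [cen_equiv e f f' hf] at ha
    obtain ⟨g, hg⟩ := h3 (e a) ha
    refine ⟨e.symm g, fun d hd => ?_⟩
    have := hg (e d) hd
    rw [← centralizer_comap e]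
    show e (e.symm g * d * (e.symm g)⁻¹) ∈ Subgroup.centralizer {e a}
    rw [map_mul, map_mul, map_inv, e.apply_symm_apply]
    exact this

theorem index_comap_equiv (D : Subgroup B) : (D.comap e.toMonoidHom).index = D.index := by
  rw [Subgroup.index_comap_of_surjective _ e.surjective]

theorem k0_equiv (hC1 : T_C1) (hC2 : T_C2) (f : B → ℂ) (f' : A → ℂ) (hf : ∀ a, f' a = f (e a))
    (D : Subgroup B) : k0 ℓ 𝔪 f' (D.comap e.toMonoidHom) = k0 ℓ 𝔪 f D := by
  unfold k0
  have : {χ' : A → ℂ | χ' ∈ Irr A ∧ SameBlock 𝔪 f' χ' ∧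
      ∃ d : ℕ, χ' 1 = d ∧ padicValNat ℓ d = padicValNat ℓ (D.comap e.toMonoidHom).index} =
      (fun g : B → ℂ => fun a => g (e a)) '' {χ' : B → ℂ | χ' ∈ Irr B ∧ SameBlock 𝔪 f χ' ∧
      ∃ d : ℕ, χ' 1 = d ∧ padicValNat ℓ d = padicValNat ℓ D.index} := by
    ext g
    simp only [Set.mem_image, Set.mem_ofPred_eq]
    rw [index_comap_equiv]
    constructor
    · rintro ⟨h1, h2, d, h3, h4⟩
      refine ⟨fun b => g (e.symm b), ⟨?_, ?_, d, ?_, h4⟩, ?_⟩
      · exact irr_equiv e.symm hC1 hC2 g h1 _ (fun a => rfl)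
      · exact (sameBlock_equiv e 𝔪 f _ f' g hf (fun a => by simp)).mp h2
      · show g (e.symm 1) = d
        rw [map_one]; exact h3
      · funext a
        simp
    · rintro ⟨g, ⟨h1, h2, d, h3, h4⟩, rfl⟩
      refine ⟨irr_equiv e hC1 hC2 g h1 _ (fun a => rfl),
        (sameBlock_equiv e 𝔪 f g f' _ hf (fun a => rfl)).mpr h2, d, ?_, h4⟩
      show g (e 1) = d
      rw [map_one]; exact h3
  rw [this]
  apply Set.ncard_image_of_injective
  intro g g' h
  funext b
  have := congrFun h (e.symm b)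
  simpa using this

end transport

section prod

theorem isConj_prod {G K : Type} [Group G] [Group K] (g a : G) (h b : K) :
    IsConj (g, h) (a, b) ↔ IsConj g a ∧ IsConj h b := by
  rw [isConj_iff, isConj_iff, isConj_iff]
  constructor
  · rintro ⟨⟨c, d⟩, hc⟩
    have := Prod.ext_iff.mp hc
    exact ⟨⟨c, this.1⟩, ⟨d, this.2⟩⟩
  · rintro ⟨⟨c, hc⟩, ⟨d, hd⟩⟩
    exact ⟨(c, d), Prod.ext hc hd⟩

theorem cen_prod {N₁ N₂ G K : Type} [Group N₁] [Fintype N₁] [Group N₂] [Fintype N₂] [Group G]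
    [Group K] (j₁ : N₁ →* G) (j₂ : N₂ →* K) (j : N₁ × N₂ →* G × K)
    (hj : ∀ p, j p = (j₁ p.1, j₂ p.2)) (f₁ : N₁ → ℂ) (f₂ : N₂ → ℂ) (g : G) (h : K) :
    cen j (fun p => f₁ p.1 * f₂ p.2) (g, h) = cen j₁ f₁ g * cen j₂ f₂ h := by
  unfold cen
  rw [div_mul_div_comm]
  congr 1
  rw [Fintype.sum_prod_type, Finset.sum_mul_sum]
  refine Finset.sum_congr rfl fun y _ => Finset.sum_congr rfl fun z _ => ?_
  rw [hj]
  by_cases h1 : IsConj g (j₁ y)
  · by_cases h2 : IsConj h (j₂ z)
    · rw [if_pos ((isConj_prod _ _ _ _).mpr ⟨h1, h2⟩), if_pos h1, if_pos h2]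
    · rw [if_neg (fun h => h2 ((isConj_prod _ _ _ _).mp h).2), if_neg h2, mul_zero]
  · rw [if_neg (fun h => h1 ((isConj_prod _ _ _ _).mp h).1), if_neg h1, zero_mul]

theorem integral_of_cong {𝔪 : Ideal (integralClosure ℤ ℂ)} {a b : ℂ} (ha : IsIntegral ℤ a)
    (h : Cong 𝔪 a b) : IsIntegral ℤ b := by
  obtain ⟨c, _, hc⟩ := h
  have : b = a - (c : ℂ) := by rw [hc]; ring
  rw [this]
  exact ha.sub c.2

theorem cong_mul (hL : T_L0) {𝔪 : Ideal (integralClosure ℤ ℂ)} (hm : 𝔪.IsMaximal)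
    {a b a' b' : ℂ} (ha : IsIntegral ℤ a) (hb : IsIntegral ℤ b) (h : Cong 𝔪 a a')
    (h' : Cong 𝔪 b b') : Cong 𝔪 (a * b) (a' * b') := by
  obtain ⟨_, _, htr, _, hmul, _⟩ := hL 𝔪 hm
  have h1 := hmul b b' a ha h'
  have h2 := hmul a a' b' (integral_of_cong hb h') h
  rw [mul_comm b' a, mul_comm b' a'] at h2
  exact htr _ _ _ h1 h2

end prod

section square

variable {G : Type} [Group G] [Fintype G] (D : Subgroup G)

theorem mem_norm_prod (x : G × G) :
    x ∈ Subgroup.normalizer ((D.prod D : Subgroup (G × G)) : Set (G × G)) ↔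
      x.1 ∈ Subgroup.normalizer (D : Set G) ∧ x.2 ∈ Subgroup.normalizer (D : Set G) := by
  simp only [Subgroup.mem_normalizer_iff, Subgroup.mem_prod]
  constructor
  · intro h
    constructor
    · intro a
      have := h (a, 1)
      simpa [D.one_mem] using this
    · intro a
      have := h (1, a)
      simpa [D.one_mem] using this
  · rintro ⟨h1, h2⟩ ⟨a, b⟩
    exact and_congr (h1 a) (h2 b)

/-- the normaliser of `D × D` -/
def eN : Subgroup.normalizer ((D.prod D : Subgroup (G × G)) : Set (G × G)) ≃*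
    (Subgroup.normalizer (D : Set G)) × (Subgroup.normalizer (D : Set G)) where
  toFun x := (⟨x.1.1, ((mem_norm_prod D x.1).mp x.2).1⟩, ⟨x.1.2, ((mem_norm_prod D x.1).mp x.2).2⟩)
  invFun y := ⟨(y.1.1, y.2.1), (mem_norm_prod D _).mpr ⟨y.1.2, y.2.2⟩⟩
  left_inv _ := rfl
  right_inv _ := rfl
  map_mul' _ _ := rfl

end square

/-- **P3.** -/
theorem p3 (hC1 : T_C1) (hC2 : T_C2) (hL : T_L0) (hP1 : T_P1) (hP2 : T_P2) : T_P3 := by
  intro ℓ _ 𝔪 hm hℓ G _ _ P hAM D χ ψ hB
  obtain ⟨hχ, hψ, hDχ, hDψ, hcorr⟩ := hB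
  let N : Subgroup G := Subgroup.normalizer (D : Set G)
  let D' : Subgroup N := D.subgroupOf N
  let Ψ : Subgroup.normalizer ((D.prod D : Subgroup (G × G)) : Set (G × G)) → ℂ :=
    fun m => ψ (eN D m).1 * ψ (eN D m).2
  have hsub : (D.prod D).subgroupOf
      (Subgroup.normalizer ((D.prod D : Subgroup (G × G)) : Set (G × G))) =
      (D'.prod D').comap (eN D).toMonoidHom := by
    ext m
    rfl
  have h2 := hP2 ℓ 𝔪 hm hℓ G G χ χ hχ hχ
  have h2' := hP2 ℓ 𝔪 hm hℓ N N ψ ψ hψ hψ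
  have hbr : Brauer ℓ 𝔪 (D.prod D) (fun p : G × G => χ p.1 * χ p.2) Ψ := by
    refine ⟨(hP1 G G _).mpr ⟨χ, hχ, χ, hχ, rfl⟩, ?_, (h2.2 D D hDχ hDχ).1, ?_, ?_⟩
    · exact irr_equiv (eN D) hC1 hC2 _ ((hP1 N N _).mpr ⟨ψ, hψ, ψ, hψ, rfl⟩) Ψ (fun a => rfl)
    · rw [hsub]
      exact isDefect_equiv (eN D) 𝔪 ℓ _ Ψ (fun a => rfl) _ (h2'.2 D' D' hDψ hDψ).1
    · rintro ⟨g, h⟩
      rw [cen_prod (MonoidHom.id G) (MonoidHom.id G) (MonoidHom.id (G × G)) (fun p => rfl) χ χ g h,
        cen_comp (eN D) (MonoidHom.prodMap N.subtype N.subtype) _ (fun a => rfl)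
          (fun p => ψ p.1 * ψ p.2) Ψ (fun a => rfl),
        cen_prod N.subtype N.subtype _ (fun p => rfl) ψ ψ g h]
      have hint := (hC1 G χ hχ).2.2.2
      exact cong_mul hL hm (hint g) (hint h) (hcorr g) (hcorr h)
  have h3 := hAM (D.prod D) _ Ψ hbr
  rw [(h2.2 D D hDχ hDχ).2, hsub, k0_equiv (eN D) 𝔪 ℓ hC1 hC2 (fun p => ψ p.1 * ψ p.2) Ψ
    (fun a => rfl), (h2'.2 D' D' hDψ hDψ).2] at h3
  exact h3

/-- the trivial affine situation given by an isomorphism -/
theorem fr_equiv (ℓ : ℕ) [hℓ : Fact ℓ.Prime] {X T : Type} [Group X] [Group T] (e : T ≃* X) :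
    Nonempty (Fr ℓ X T) := by
  refine ⟨{ V := ⊥
            norm := inferInstance
            comm := ?_
            cop := ?_
            lam := fun x => if x = 1 then 1 else 0
            lam_off := ?_
            lam_one := ?_
            lam_mul := ?_
            io := e.toMonoidHom
            inj := e.injective
            disj := ?_
            stab := ?_ }⟩
  · intro v hv w hw
    rw [Subgroup.mem_bot] at hv hw
    rw [hv, hw]
  · rw [Subgroup.card_bot]
    exact hℓ.out.one_lt.ne' ∘ Nat.dvd_one.mp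
  · intro x hx
    rw [Subgroup.mem_bot] at hx
    exact if_neg hx
  · exact if_pos rfl
  · intro v hv w hw
    rw [Subgroup.mem_bot] at hv hw
    rw [hv, hw]; simp
  · intro t ht
    rw [Subgroup.mem_bot] at ht
    exact e.injective (by rw [map_one]; exact ht)
  · intro x
    constructor
    · intro _
      exact ⟨1, Subgroup.one_mem _, e.symm x, by simp⟩
    · intro _ v hv
      rw [Subgroup.mem_bot] at hv
      rw [hv]; simp

theorem amrel_equiv (hB7 : T_B7) {ℓ : ℕ} [Fact ℓ.Prime] {𝔪 : Ideal (integralClosure ℤ ℂ)}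
    (hm : 𝔪.IsMaximal) (hℓ : (ℓ : integralClosure ℤ ℂ) ∈ 𝔪) {X T : Type} [Group X] [Group T]
    [Fintype X] [Fintype T] (P : ℕ → ℕ → Prop) (e : T ≃* X) (h : AMrel ℓ 𝔪 P X) :
    AMrel ℓ 𝔪 P T :=
  hB7 ℓ 𝔪 hm hℓ X T P (fr_equiv ℓ e) h

/-- **P4.** -/
theorem p4 (hB7 : T_B7) (hP3 : T_P3) : T_P4 := by
  intro ℓ _ 𝔪 hm hℓ G _ _ P k
  induction k generalizing P with
  | zero =>
    intro h
    have e : G ≃* (Fin (2 ^ 0) → G) :=
      { toFun := fun g _ => g
        invFun := fun f => f ⟨0, by norm_num⟩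
        left_inv := fun g => rfl
        right_inv := fun f => by
          funext i
          have : i = ⟨0, by norm_num⟩ := by
            apply Fin.ext
            have := i.2
            simp only [pow_zero] at this
            omega
          rw [this]
        map_mul' := fun a b => rfl }
    have h2 := amrel_equiv hB7 hm hℓ P e h
    simpa using h2
  | succ k ih =>
    intro h
    have hfin : Nonempty (Fin (2 ^ (k + 1)) ≃ Fin (2 ^ k) ⊕ Fin (2 ^ k)) := by
      refine ⟨(finCongr ?_).trans finSumFinEquiv.symm⟩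
      rw [pow_succ]; ring
    obtain ⟨ef⟩ := hfin
    have e : ((Fin (2 ^ k) → G) × (Fin (2 ^ k) → G)) ≃* (Fin (2 ^ (k + 1)) → G) :=
      { toFun := fun p i => Sum.elim p.1 p.2 (ef i)
        invFun := fun f => (fun i => f (ef.symm (Sum.inl i)), fun i => f (ef.symm (Sum.inr i)))
        left_inv := fun p => by
          apply Prod.ext
          · funext i; simp
          · funext i; simp
        right_inv := fun f => by
          funext i
          have key : ∀ y : Fin (2 ^ k) ⊕ Fin (2 ^ k),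
              Sum.elim (fun i => f (ef.symm (Sum.inl i))) (fun i => f (ef.symm (Sum.inr i))) y =
                f (ef.symm y) := by
            rintro (j | j) <;> rfl
          have := key (ef i)
          rw [Equiv.symm_apply_apply] at this
          exact this
        map_mul' := fun p q => by
          funext i
          simp only [Pi.mul_apply, Prod.fst_mul, Prod.snd_mul]
          rcases ef i with j | j <;> simp }
    have h2 := amrel_equiv hB7 hm hℓ P e h
    have h3 := hP3 ℓ 𝔪 hm hℓ (Fin (2 ^ k) → G) P h2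
    have h4 := ih _ h3
    have h5 : ∀ a : ℕ, a ^ 2 ^ k * a ^ 2 ^ k = a ^ 2 ^ (k + 1) := by
      intro a
      rw [← pow_add]
      congr 1
      rw [pow_succ]; ring
    simpa only [h5] using h4

end HP

/-- **P3.** -/
theorem p3 (hC1 : T_C1) (hC2 : T_C2) (hL : T_L0) (hP1 : T_P1) (hP2 : T_P2) : T_P3 :=
  HP.p3 hC1 hC2 hL hP1 hP2

/-- **P4.** -/
theorem p4 (hB7 : T_B7) (hP3 : T_P3) : T_P4 := HP.p4 hB7 hP3

end AMx
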